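import Pool.Agent.H121.EU.Iface

/-!
# The odometer is an action
-/

set_option autoImplicit false

open scoped BigOperators

namespace Pool.Agent.H307.EU

open Pool.Agent.H987.Y
open Pool.Agent.H121.EU

variable {d : ℕ} {Q : ℕ → ℕ}

theorem pQ_succ (Q : ℕ → ℕ) (n : ℕ) : pQ Q (n + 1) = pQ Q n * Q n :=
  Finset.prod_range_succ _ _

theorem pQ_zero (Q : ℕ → ℕ) : pQ Q 0 = 1 := rfl

theorem pQ_pos (hQ : ∀ k, 0 < Q k) (n : ℕ) : 0 < pQ Q n :=
  Finset.prod_pos fun k _ => hQ k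

theorem hd_zero (u : Hu d Q) (i : Fin d) : hd 0 u i = 0 := rfl

theorem hd_succ (u : Hu d Q) (n : ℕ) (i : Fin d) :
    hd (n + 1) u i = hd n u i + (pQ Q n : ℤ) * ((u n i : ℕ) : ℤ) := by
  unfold hd
  rw [Finset.sum_range_succ]
  rfl

theorem hd_range (hQ : ∀ k, 0 < Q k) (u : Hu d Q) (n : ℕ) (i : Fin d) :
    0 ≤ hd n u i ∧ hd n u i < pQ Q n := by
  induction n with
  | zero =>
    rw [hd_zero, pQ_zero]
    norm_num
  | succ n ih =>
    rw [hd_succ, pQ_succ]
    have h1 : (0 : ℤ) < pQ Q n := by exact_mod_cast pQ_pos hQ n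
    have h2 : (((u n i : Fin (Q n)) : ℕ) : ℤ) + 1 ≤ Q n := by
      have := (u n i).2
      exact_mod_cast this
    have h3 : (0 : ℤ) ≤ (((u n i : Fin (Q n)) : ℕ) : ℤ) := Int.natCast_nonneg _
    push_cast
    constructor
    · have := mul_nonneg h1.le h3
      linarith [ih.1]
    · nlinarith [ih.2]

theorem hd_odo (hQ : ∀ k, 0 < Q k) (v : Lt d) (u : Hu d Q) (n : ℕ) (i : Fin d) :
    hd n (odo v u) i = (hd n u i + v i) % (pQ Q n : ℤ) := by
  induction n with
  | zero =>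
    rw [hd_zero, pQ_zero, Nat.cast_one, Int.emod_one]
  | succ n ih =>
    have h1 : (0 : ℤ) < pQ Q n := by exact_mod_cast pQ_pos hQ n
    have hq : (0 : ℤ) < Q n := by exact_mod_cast hQ n
    obtain ⟨a, ha⟩ : ∃ a : ℤ, a = hd (n + 1) u i + v i := ⟨_, rfl⟩
    obtain ⟨N, hN⟩ : ∃ N : ℤ, N = (pQ Q n : ℤ) := ⟨_, rfl⟩
    obtain ⟨q, hq'⟩ : ∃ q : ℤ, q = (Q n : ℤ) := ⟨_, rfl⟩
    have hsucc : (pQ Q (n + 1) : ℤ) = N * q := by
      rw [pQ_succ, hN, hq']
      push_cast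
      rfl
    -- the digit
    have hNq : 0 < N * q := by
      rw [hN, hq']
      positivity
    have hm0 : 0 ≤ a % (N * q) := Int.emod_nonneg _ hNq.ne'
    have hm1 : a % (N * q) < N * q := Int.emod_lt_of_pos _ hNq
    have hN0 : 0 < N := by rw [hN]; exact h1
    have hd0 : 0 ≤ a % (N * q) / N := Int.ediv_nonneg hm0 hN0.le
    have hd1 : a % (N * q) / N < q := by
      rw [Int.ediv_lt_iff_lt_mul hN0]
      linarith [mul_comm N q]
    have hdig : (((odo v u n i : Fin (Q n)) : ℕ) : ℤ) = a % (N * q) / N := by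
      show (((((hd (n + 1) u i + v i) % (pQ Q (n + 1) : ℤ)) / (pQ Q n : ℤ)).toNat % Q n : ℕ) : ℤ) = _
      rw [← ha, hsucc, ← hN, Int.natCast_mod, Int.toNat_of_nonneg hd0, ← hq']
      exact Int.emod_eq_of_lt hd0 hd1
    rw [hd_succ, ih, hdig, ← ha, hsucc, ← hN]
    have hmod : (hd n u i + v i) % N = a % (N * q) % N := by
      rw [Int.emod_emod_of_dvd a (Dvd.intro q rfl), ha, hd_succ, ← hN]
      have : hd n u i + N * (((u n i : Fin (Q n)) : ℕ) : ℤ) + v i =
          hd n u i + v i + N * (((u n i : Fin (Q n)) : ℕ) : ℤ) := by ring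
      rw [this, Int.add_mul_emod_self_left]
    rw [hmod]
    exact Int.emod_add_mul_ediv _ _

theorem hd_inj (hQ : ∀ k, 0 < Q k) (u u' : Hu d Q) (h : ∀ n i, hd n u i = hd n u' i) : u = u' := by
  funext n i
  have h1 := h (n + 1) i
  rw [hd_succ, hd_succ, h n i] at h1
  have h2 : (pQ Q n : ℤ) ≠ 0 := by
    have := pQ_pos hQ n
    positivity
  have h3 := mul_left_cancel₀ h2 (add_left_cancel h1)
  exact Fin.ext (by exact_mod_cast h3)

theorem odoA : S_odoA := by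
  intro d Q hQ
  refine ⟨fun u n i => hd_range hQ u n i, fun v u n i => hd_odo hQ v u n i,
    fun u u' h => hd_inj hQ u u' h, fun u => ?_, fun v w u => ?_⟩
  · apply hd_inj hQ
    intro n i
    rw [hd_odo hQ, Pi.zero_apply, add_zero]
    exact Int.emod_eq_of_lt (hd_range hQ u n i).1 (hd_range hQ u n i).2
  · apply hd_inj hQ
    intro n i
    rw [hd_odo hQ, hd_odo hQ, hd_odo hQ, Int.emod_add_emod, Pi.add_apply]
    congr 1
    ring

end Pool.Agent.H307.EU
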